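import Pool.Agent.Helper86.SJ.Defs

/-!
# Signed Johnson graphs: packages SRC and LOW of helper86 (MP_66bcf1_co)
-/

set_option autoImplicit false

open Finset

namespace Pool.Agent.Helper1.SJ

open _root_.SJ

theorem mem_supp {n : ℕ} (v : Fin n → ℤ) (i : Fin n) : i ∈ supp v ↔ v i ≠ 0 := by
  simp [supp]

theorem mem_fib {n : ℕ} (F : Finset (Fin n → ℤ)) (S : Finset (Fin n)) (v : Fin n → ℤ) :
    v ∈ fib F S ↔ v ∈ F ∧ supp v = S := by
  classical
  exact mem_filter

/-- **package SRC** -/
theorem src : SRCStm := by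
  classical
  intro n k F hF S hS hEX
  rw [EX, mem_union, not_or] at hEX
  obtain ⟨hH, hL⟩ := hEX
  have hSk : S ∈ powersetCard k (univ : Finset (Fin n)) :=
    mem_powersetCard.2 ⟨subset_univ _, hS⟩
  have h2 : 1 < #(fib F S) := by
    by_contra h
    exact hL (mem_filter.2 ⟨hSk, by omega⟩)
  have hcl : ∀ v ∈ F, supp v = S → ∀ x y, x ≠ y → ¬ ClashV F v x y := by
    intro v hv hvS x y hxy hc
    exact hH (mem_filter.2 ⟨hSk, v, hv, hvS, x, y, hxy, hc⟩)
  have hval : ∀ v ∈ F, ∀ i, v i ≠ 0 → v i = 1 ∨ v i = -1 := by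
    intro v hv i hi
    rcases (hF v hv).1 i with h | h | h
    · exact Or.inr h
    · exact absurd h hi
    · exact Or.inl h
  have hopp : ∀ v w, v ∈ fib F S → w ∈ fib F S → ∀ i, v i ≠ w i → w i = - v i ∧ v i ≠ 0 := by
    intro v w hv hw i hi
    rw [mem_fib] at hv hw
    have h3 : v i ≠ 0 ↔ w i ≠ 0 := by
      rw [← mem_supp, ← mem_supp, hv.2, hw.2]
    have h4 : v i ≠ 0 := by
      intro h
      have : w i = 0 := by
        by_contra h5
        exact h3.2 h5 h
      exact hi (h.trans this.symm)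
    have h5 := h3.1 h4
    refine ⟨?_, h4⟩
    rcases hval v hv.1 i h4 with h | h <;> rcases hval w hw.1 i h5 with h' | h'
    · exact absurd (h.trans h'.symm) hi
    · rw [h, h']
    · rw [h, h']; norm_num
    · exact absurd (h.trans h'.symm) hi
  have hone : ∀ v w, v ∈ fib F S → w ∈ fib F S → ∀ x y, v x ≠ w x → v y ≠ w y → x = y := by
    intro v w hv hw x y hx hy
    by_contra hxy
    have h3 := hopp v w hv hw x hx
    have h4 := hopp v w hv hw y hy
    rw [mem_fib] at hv hw
    exact hcl v hv.1 hv.2 x y hxy ⟨h3.2, h4.2, w, hw.1, h3.1, h4.1⟩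
  obtain ⟨v, hv, w, hw, hvw⟩ := one_lt_card.1 h2
  have hdiff : ∀ a b : Fin n → ℤ, a ≠ b → ∃ i, a i ≠ b i := fun a b h => Function.ne_iff.1 h
  obtain ⟨f, hf⟩ := hdiff v w hvw
  have hall : ∀ u ∈ fib F S, u = v ∨ u = w := by
    intro u hu
    by_contra h
    rw [not_or] at h
    obtain ⟨g, hg⟩ := hdiff v u (fun h' => h.1 h'.symm)
    obtain ⟨g', hg'⟩ := hdiff w u (fun h' => h.2 h'.symm)
    by_cases hgf : g = f
    · refine h.2 (funext fun i => ?_)
      by_cases hi : i = f
      · rw [hi]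
        rw [hgf] at hg
        rw [(hopp v u hv hu f hg).1, (hopp v w hv hw f hf).1]
      · have h5 : v i = u i := by
          by_contra h6
          exact hi ((hone v u hv hu i g h6 hg).trans hgf)
        have h6 : v i = w i := by
          by_contra h7
          exact hi (hone v w hv hw i f h7 hf)
        rw [← h5, h6]
    · have h5 : v f = u f := by
        by_contra h6
        exact hgf (hone v u hv hu g f hg h6)
      have h6 : g' = f := hone w u hw hu g' f hg' (by rw [← h5]; exact fun h' => hf h'.symm)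
      have h7 : w g = u g := by
        by_contra h8
        exact hgf ((hone w u hw hu g g' h8 hg').trans h6)
      have h8 : v g = w g := by
        by_contra h9
        exact hgf (hone v w hv hw g f h9 hf)
      exact hg (h8.trans h7)
  refine ⟨?_, f, ?_, ?_⟩
  · have h3 : fib F S = {v, w} := by
      ext u
      rw [mem_insert, mem_singleton]
      exact ⟨hall u, fun h => by rcases h with rfl | rfl <;> assumption⟩
    rw [h3, card_pair hvw]
  · rw [← ((mem_fib F S v).1 hv).2, mem_supp]
    exact (hopp v w hv hw f hf).2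
  · intro y hy hyf
    obtain ⟨h3, h4⟩ := hopp v w hv hw f hf
    have hvF := (mem_fib F S v).1 hv
    have hwF := (mem_fib F S w).1 hw
    have hvy : v y ≠ 0 := by rw [← mem_supp, hvF.2]; exact hy
    have hwy : w y ≠ 0 := by rw [← mem_supp, hwF.2]; exact hy
    have hvwy : w y = v y := by
      by_contra h5
      exact hyf (hone v w hv hw y f (fun h' => h5 h'.symm) hf)
    have hpm : (∃ t ∈ F, t f = 1 ∧ t y = v y ∧ supp t = S) ∧
        (∃ t ∈ F, t f = -1 ∧ t y = v y ∧ supp t = S) := by
      rcases hval v hvF.1 f h4 with h | h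
      · exact ⟨⟨v, hvF.1, h, rfl, hvF.2⟩, ⟨w, hwF.1, by rw [h3, h], hvwy, hwF.2⟩⟩
      · exact ⟨⟨w, hwF.1, by rw [h3, h]; norm_num, hvwy, hwF.2⟩, ⟨v, hvF.1, h, rfl, hvF.2⟩⟩
    obtain ⟨⟨t, ht1, ht2, ht3, ht4⟩, ⟨t', ht1', ht2', ht3', ht4'⟩⟩ := hpm
    refine ⟨fun h => hyf h.symm, ⟨t, ht1, ht2, by rw [ht3]; exact hvy⟩,
      ⟨t', ht1', ht2', by rw [ht3']; exact hvy⟩, v y, hval v hvF.1 y hvy, ?_⟩
    intro u hu huf huy
    by_contra hne
    have h5 : u y = - v y := by
      rcases hval v hvF.1 y hvy with h | h <;> rcases hval u hu y huy with h' | h'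
      · exact absurd (h'.trans h.symm) hne
      · rw [h, h']
      · rw [h, h']; norm_num
      · exact absurd (h'.trans h.symm) hne
    rcases hval u hu f huf with h | h
    · refine hcl t' ht1' ht4' f y (fun h' => hyf h'.symm) ⟨?_, ?_, u, hu, ?_, ?_⟩
      · rw [ht2']; norm_num
      · rw [ht3']; exact hvy
      · rw [h, ht2']; norm_num
      · rw [h5, ht3']
    · refine hcl t ht1 ht4 f y (fun h' => hyf h'.symm) ⟨?_, ?_, u, hu, ?_, ?_⟩
      · rw [ht2]; norm_num
      · rw [ht3]; exact hvy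
      · rw [h, ht2]
      · rw [h5, ht3]

/-- **package LOW** -/
theorem low (hsrc : SRCStm) : LOWStm := by
  classical
  intro n k F hk hF x y hxy v hv hc
  obtain ⟨hvx, hvy, w, hw, hwx, hwy⟩ := hc
  obtain ⟨U, hU⟩ : ∃ U : Finset (Fin n), U = insert x (insert y (DD F x y)) := ⟨_, rfl⟩
  have hxD : x ∉ DD F x y := by
    intro h
    rw [DD, mem_filter] at h
    exact hvx (h.2.2.2 v hv ⟨hvx, hvy, w, hw, hwx, hwy⟩)
  have hyD : y ∉ DD F x y := by
    intro h
    rw [DD, mem_filter] at h
    exact hvy (h.2.2.2 v hv ⟨hvx, hvy, w, hw, hwx, hwy⟩)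
  have hUc : #U = #(DD F x y) + 2 := by
    rw [hU, card_insert_of_notMem, card_insert_of_notMem hyD]
    rw [mem_insert, not_or]
    exact ⟨hxy, hxD⟩
  have hUn : #U ≤ n := by
    have := card_le_univ U
    rwa [Fintype.card_fin] at this
  have hMc : #Uᶜ = n - #U := by rw [card_compl, Fintype.card_fin]
  refine ⟨#Uᶜ, by omega, ?_⟩
  rw [← card_powersetCard]
  have hRM : ∀ R ∈ powersetCard (k - 2) Uᶜ, x ∉ R ∧ y ∉ R ∧ Disjoint R (DD F x y) ∧ #R = k - 2 := by
    intro R hR
    rw [mem_powersetCard] at hR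
    have h1 : ∀ i ∈ R, i ∉ U := fun i hi => by
      have := hR.1 hi
      rwa [mem_compl] at this
    refine ⟨fun h => h1 x h (by rw [hU]; exact mem_insert_self _ _),
      fun h => h1 y h (by rw [hU]; exact mem_insert_of_mem (mem_insert_self _ _)), ?_, hR.2⟩
    rw [disjoint_left]
    intro i hi hi'
    exact h1 i hi (by rw [hU]; exact mem_insert_of_mem (mem_insert_of_mem hi'))
  refine card_le_card_of_injOn (fun R => insert x (insert y R)) ?_ ?_
  · intro R hR
    obtain ⟨hxR, hyR, hdis, hRc⟩ := hRM R hR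
    show insert x (insert y R) ∈ exP k F x y
    rw [exP, mem_filter]
    refine ⟨?_, mem_insert_self _ _, mem_insert_of_mem (mem_insert_self _ _)⟩
    have hSc : #(insert x (insert y R)) = k := by
      rw [card_insert_of_notMem, card_insert_of_notMem hyR, hRc]
      · omega
      · rw [mem_insert, not_or]
        exact ⟨hxy, hxR⟩
    by_contra hEX
    obtain ⟨hfc, f, hfS, hf⟩ := hsrc n k F hF _ hSc hEX
    have hclash : ∀ a b : Fin n, v a ≠ 0 → v b ≠ 0 → w a = - v a → w b = - v b →
        ¬ Arc F a b := by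
      rintro a b ha hb hwa hwb ⟨-, -, -, c, -, h⟩
      have h1 := h v hv ha hb
      have h2 := h w hw (by rw [hwa]; exact neg_ne_zero.2 ha) (by rw [hwb]; exact neg_ne_zero.2 hb)
      rw [hwb, ← h1] at h2
      omega
    have hfx : f ≠ x := by
      intro h
      exact hclash x y hvx hvy hwx hwy (h ▸ hf y (mem_insert_of_mem (mem_insert_self _ _))
        (by rw [h]; exact fun h' => hxy h'.symm))
    have hfy : f ≠ y := by
      intro h
      exact hclash y x hvy hvx hwy hwx (h ▸ hf x (mem_insert_self _ _) (by rw [h]; exact hxy))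
    have hfR : f ∈ R := by
      rw [mem_insert, mem_insert] at hfS
      rcases hfS with h | h | h
      · exact absurd h hfx
      · exact absurd h hfy
      · exact h
    have hA := hf x (mem_insert_self _ _) (fun h => hfx h.symm)
    have hB := hf y (mem_insert_of_mem (mem_insert_self _ _)) (fun h => hfy h.symm)
    refine disjoint_left.1 hdis hfR ?_
    rw [DD, mem_filter]
    refine ⟨mem_univ _, hA, hB, ?_⟩
    intro u hu hcu
    by_contra huf
    obtain ⟨u0, hu0⟩ : (fib F (insert x (insert y R))).Nonempty := by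
      rw [← card_pos, hfc]
      norm_num
    rw [mem_fib] at hu0
    have h0f : u0 f ≠ 0 := by rw [← mem_supp, hu0.2]; exact hfS
    have h0x : u0 x ≠ 0 := by rw [← mem_supp, hu0.2]; exact mem_insert_self _ _
    have h0y : u0 y ≠ 0 := by
      rw [← mem_supp, hu0.2]; exact mem_insert_of_mem (mem_insert_self _ _)
    obtain ⟨hux, huy, w', hw', hwx', hwy'⟩ := hcu
    obtain ⟨-, -, -, c, -, hcA⟩ := hA
    obtain ⟨-, -, -, c', -, hcB⟩ := hB
    have h1 : u0 x = u x := (hcA u0 hu0.1 h0f h0x).trans (hcA u hu huf hux).symm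
    have h2 : u0 y = u y := (hcB u0 hu0.1 h0f h0y).trans (hcB u hu huf huy).symm
    refine hEX ?_
    rw [EX, mem_union]
    refine Or.inl ?_
    rw [HH, mem_filter]
    exact ⟨mem_powersetCard.2 ⟨subset_univ _, hSc⟩, u0, hu0.1, hu0.2, x, y, hxy, h0x, h0y,
      w', hw', by rw [h1]; exact hwx', by rw [h2]; exact hwy'⟩
  · intro R hR R' hR' h
    obtain ⟨hxR, hyR, -, -⟩ := hRM R hR
    obtain ⟨hxR', hyR', -, -⟩ := hRM R' hR'
    have h' : insert x (insert y R) = insert x (insert y R') := h
    ext i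
    have hi : i ∈ insert x (insert y R) ↔ i ∈ insert x (insert y R') := by rw [h']
    rw [mem_insert, mem_insert, mem_insert, mem_insert] at hi
    constructor
    · intro h1
      rcases hi.1 (Or.inr (Or.inr h1)) with h2 | h2 | h2
      · exact absurd (h2 ▸ h1) hxR
      · exact absurd (h2 ▸ h1) hyR
      · exact h2
    · intro h1
      rcases hi.2 (Or.inr (Or.inr h1)) with h2 | h2 | h2
      · exact absurd (h2 ▸ h1) hxR'
      · exact absurd (h2 ▸ h1) hyR'
      · exact h2

end Pool.Agent.Helper1.SJ
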